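import Pool.Agent.helper60.DB.SpecC

/-!
# Row bc:FM (MP_fb2c2a_nt)
-/

set_option autoImplicit false

namespace Pool.Agent.helper60.DB

open Polynomial Finset

theorem FM_EE_map {R k : Type} [CommRing R] [Field k] (q : R →+* k) (g : PowerSeries R) :
    PowerSeries.map q (g + EE g) = PowerSeries.map q g + EE (PowerSeries.map q g) := by
  unfold EE
  ext n
  have h2 : ∀ (S : Type) [CommRing S] (f : PowerSeries S),
      PowerSeries.coeff n (2 * PowerSeries.X * f) = 2 * PowerSeries.coeff n (PowerSeries.X * f) := by
    intro S _ f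
    have : (2 : PowerSeries S) * PowerSeries.X * f = PowerSeries.C (2 : S) * (PowerSeries.X * f) := by
      rw [map_ofNat]; ring
    rw [this, PowerSeries.coeff_C_mul]
  rw [map_add, map_add, map_add]
  congr 1
  rw [PowerSeries.coeff_map, h2, h2, map_mul, map_ofNat]
  congr 1
  cases n with
  | zero => simp
  | succ n =>
    rw [PowerSeries.coeff_succ_X_mul, PowerSeries.coeff_succ_X_mul, PowerSeries.coeff_derivative,
      PowerSeries.coeff_derivative, PowerSeries.coeff_map, map_mul, map_add, map_natCast, map_one]

theorem FM_EE_C {R : Type} [CommRing R] (c : R) (g : PowerSeries R) :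
    PowerSeries.C c * g + EE (PowerSeries.C c * g) = PowerSeries.C c * (g + EE g) := by
  unfold EE
  have : PowerSeries.derivative R (PowerSeries.C c * g) = PowerSeries.C c * PowerSeries.derivative R g := by
    rw [Derivation.leibniz]
    have h : PowerSeries.derivative R (PowerSeries.C c) = 0 := PowerSeries.derivative_C
    rw [h, smul_zero, add_zero, smul_eq_mul]
  rw [this]
  ring

theorem FM (hPV : PV_stmt) (hFP : FP_stmt) (hSQ : SQ_stmt) (hMR : MR_stmt) : FM_stmt := by
  intro R k _ _ _ _ p m _ _ q hL hp5 hpm A B A' B' π α y g u N D hY hM hqπ hπα hB hAB hD0 hN hD hDg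
  have hp : (p : R) ≠ 0 := by
    exact_mod_cast (Fact.out : p.Prime).ne_zero
  have hmapD : ((D.map q : k[X]) : PowerSeries k) * PowerSeries.map q g = ((N.map q : k[X]) : PowerSeries k) := by
    rw [Polynomial.polynomial_map_coe, Polynomial.polynomial_map_coe, ← map_mul, hDg]
  have hy : PowerSeries.map q y ≠ 0 := by
    intro h
    have h1 : PowerSeries.constantCoeff (PowerSeries.map q y) = 1 := by
      rw [← PowerSeries.coeff_zero_eq_constantCoeff_apply, PowerSeries.coeff_map,
        PowerSeries.coeff_zero_eq_constantCoeff_apply, hY.one, map_one]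
    rw [h, map_zero] at h1
    exact zero_ne_one h1
  have hode : PowerSeries.map q g + EE (PowerSeries.map q g) = 0 := by
    have h1 := congrArg (PowerSeries.map q) hM.ode
    rw [map_mul, map_mul, PowerSeries.map_C, hqπ, map_zero, zero_mul, FM_EE_map] at h1
    exact (mul_eq_zero.1 h1).resolve_left hy
  have hD0' : (D.map q).coeff 0 = 1 := by rw [Polynomial.coeff_map, hD0, map_one]
  by_cases hf : PowerSeries.map q g = 0
  · exfalso
    obtain ⟨g2, hg2⟩ := ((hPV R k p q hL).1 g).1 hf
    have hNq : N.map q = 0 := by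
      rw [hf, mul_zero] at hmapD
      exact Polynomial.coe_injective k (by rw [← hmapD, Polynomial.coe_zero])
    obtain ⟨N2, hN2⟩ := ((hPV R k p q hL).2 N).1 hNq
    have hCp : (PowerSeries.C (p : R)) ≠ 0 := by
      intro h
      apply hp
      have := congrArg (PowerSeries.constantCoeff (R := R)) h
      rwa [PowerSeries.constantCoeff_C, map_zero] at this
    have hDg2 : (D : PowerSeries R) * g2 = (N2 : PowerSeries R) := by
      apply mul_left_cancel₀ hCp
      have h1 : PowerSeries.C (p : R) * ((D : PowerSeries R) * g2) = (D : PowerSeries R) * g := by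
        rw [hg2]; ring
      rw [h1, hDg, hN2, Polynomial.coe_mul, Polynomial.coe_C]
    have hu : PowerSeries.C α * (y * (g2 + EE g2)) = u := by
      apply mul_left_cancel₀ hCp
      have h1 := hM.ode
      rw [hg2, FM_EE_C] at h1
      have h2 : PowerSeries.C (p : R) = PowerSeries.C π * PowerSeries.C α := by
        rw [← map_mul, hπα]
      calc PowerSeries.C (p : R) * (PowerSeries.C α * (y * (g2 + EE g2)))
          = PowerSeries.C α * (y * (PowerSeries.C (p : R) * (g2 + EE g2))) := by ring
        _ = PowerSeries.C α * (PowerSeries.C π * u) := by rw [h1]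
        _ = PowerSeries.C (p : R) * u := by rw [h2]; ring
    have hMn := (hMR R g2 N2 D hDg2).1
    -- the squared identity over `R`
    have hsq : PowerSeries.C (α ^ 2) * (y ^ 2 * ((Mn N2 D : R[X]) : PowerSeries R) ^ 2)
        = (D : PowerSeries R) ^ 4 * u ^ 2 := by
      rw [← hMn, ← hu, map_pow]
      ring
    have hu2 : PowerSeries.map q (u ^ 2) = 1 := by
      rw [hM.cur, map_add, map_add, map_mul, map_mul, map_mul, map_pow, map_pow, map_mul, map_pow, hf,
        map_one]
      ring
    have h1 := congrArg (PowerSeries.map q) hsq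
    rw [map_mul, map_mul, map_mul, hu2, mul_one, hY.sq] at h1
    have h2 : PowerSeries.map q (1 + PowerSeries.C A * PowerSeries.X + PowerSeries.C B * PowerSeries.X ^ 2)
        = ((qf (q A) (q B) : k[X]) : PowerSeries k) := by
      unfold qf
      rw [map_add, map_add, map_mul, map_mul, map_one, map_pow, PowerSeries.map_C, PowerSeries.map_C,
        PowerSeries.map_X]
      push_cast
      ring
    have h7 : PowerSeries.map q (((Mn N2 D : R[X]) : PowerSeries R) ^ 2)
        = (((Mn N2 D).map q : k[X]) : PowerSeries k) ^ 2 := by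
      rw [map_pow, Polynomial.polynomial_map_coe]
    have h8 : PowerSeries.map q ((D : PowerSeries R) ^ 4) = ((D.map q : k[X]) : PowerSeries k) ^ 4 := by
      rw [map_pow, Polynomial.polynomial_map_coe]
    have h9 : PowerSeries.map q (PowerSeries.C (α ^ 2)) = PowerSeries.C (q α ^ 2) := by
      rw [PowerSeries.map_C, map_pow]
    rw [h2, h7, h8, h9] at h1
    have h3 : (C (q α) * (Mn N2 D).map q) ^ 2 * qf (q A) (q B) = ((D.map q) ^ 2) ^ 2 := by
      apply Polynomial.coe_injective k
      have e1 : (((C (q α) * (Mn N2 D).map q) ^ 2 * qf (q A) (q B) : k[X]) : PowerSeries k)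
          = PowerSeries.C (q α ^ 2) * (((qf (q A) (q B) : k[X]) : PowerSeries k) *
            ((((Mn N2 D).map q : k[X])) : PowerSeries k) ^ 2) := by
        rw [map_pow]
        push_cast
        ring
      have e2 : ((((D.map q) ^ 2) ^ 2 : k[X]) : PowerSeries k) = ((D.map q : k[X]) : PowerSeries k) ^ 4 := by
        push_cast
        ring
      rw [e1, e2]
      exact h1
    have hAB' : (q A) ^ 2 ≠ 4 * q B := by
      intro h
      apply hAB
      rw [map_sub, map_pow, map_mul, map_ofNat, h, sub_self]
    have h4 := hSQ k (q A) (q B) _ _ hB hAB' h3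
    rw [h4] at h3
    have h5 : D.map q = 0 := by
      have h6 : ((D.map q) ^ 2) ^ 2 = 0 := by rw [← h3]; ring
      exact pow_eq_zero_iff (two_ne_zero) |>.1 (pow_eq_zero_iff (two_ne_zero) |>.1 h6)
    rw [h5, Polynomial.coeff_zero] at hD0'
    exact zero_ne_one hD0'
  · obtain ⟨e, he, hNe, hDe⟩ := hFP k p m hpm (PowerSeries.map q g) (N.map q) (D.map q) hD0'
      (le_trans (Polynomial.natDegree_map_le) hN) (le_trans (Polynomial.natDegree_map_le) hD) hmapD hode hf
    have h1 : q (N.coeff m) = e := by
      rw [← Polynomial.coeff_map, hNe, Polynomial.coeff_C_mul, Polynomial.coeff_X_pow_self, mul_one]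
    exact ⟨by rw [h1]; exact he, by rw [h1]; exact hNe, hDe⟩

end Pool.Agent.helper60.DB
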