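import Pool.Agent.helper60.DB.SpecF

namespace Pool.Agent.helper60.DB

open Polynomial Finset Pool.Agent.helper60.DK

theorem TW (hMM : MM_stmt) (hLT2 : LT2_stmt) (hLR : LR_stmt) (hKC : KC_stmt) : TW_stmt := by
  intro R k _ _ _ _ p m _ _ q hL hp5 hpm A A' β μ ν μ' α B η m1 n1 e e' e'' eb σ τ a b y w hY hw hB hD hD'
    hm hn hβ hOβ hOμ hOν hOμ' hσ hτ hμμ hμν hRμ hRν hpab hodd hα hq hη hqA hqA'
  have hinj : Function.Injective (algebraMap R (FractionRing R)) := IsFractionRing.injective R (FractionRing R)
  have hcz : CharZero (FractionRing R) := by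
    refine ⟨fun i j hij => ?_⟩
    have h1 : algebraMap R (FractionRing R) (i : R) = algebraMap R (FractionRing R) (j : R) := by
      rw [map_natCast, map_natCast]; exact hij
    exact Nat.cast_injective (hinj h1)
  have hB0 : (B : R) ≠ 0 := by
    intro h
    apply hB
    have : B = 0 := by exact_mod_cast h
    rw [this]; exact dvd_zero _
  have hBK : algebraMap R (FractionRing R) (B : R) ≠ 0 := by
    intro h
    exact hB0 (hinj (by rw [h, map_zero]))
  have hDK : (algebraMap R (FractionRing R) A) ^ 2 ≠ 4 * algebraMap R (FractionRing R) (B : R) := by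
    intro h
    apply hD
    have h1 : A ^ 2 = 4 * (B : R) := by
      apply hinj
      rw [map_pow, map_mul, h, map_ofNat]
    rw [h1, sub_self, map_zero]
  have hDK' : (algebraMap R (FractionRing R) A') ^ 2 ≠ 4 * algebraMap R (FractionRing R) (B : R) := by
    intro h
    apply hD'
    have h1 : A' ^ 2 = 4 * (B : R) := by
      apply hinj
      rw [map_pow, map_mul, h, map_ofNat]
    rw [h1, sub_self, map_zero]
  have hYK := (hMM R (FractionRing R) (algebraMap R (FractionRing R)) A (B : R) 0 y 0 0).2 hY
  have hβK : (algebraMap R (FractionRing R) β) ^ 2 = -((m1 * n1 : ℕ) : FractionRing R) := by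
    rw [← map_pow, hβ, map_neg, map_natCast]
  have hμμK : algebraMap R (FractionRing R) μ' * algebraMap R (FractionRing R) μ = (σ : FractionRing R) * m1 := by
    rw [← map_mul, hμμ, map_mul, map_intCast, map_natCast]
  have hμνK : algebraMap R (FractionRing R) μ' * algebraMap R (FractionRing R) ν
      = (τ : FractionRing R) * algebraMap R (FractionRing R) β := by
    rw [← map_mul, hμν, map_mul, map_intCast]
  obtain ⟨g', u', hMl, hTy, hHt⟩ := hLT2 (FractionRing R) (algebraMap R (FractionRing R) A)
    (algebraMap R (FractionRing R) (B : R)) (algebraMap R (FractionRing R) A')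
    (algebraMap R (FractionRing R) (B : R)) (algebraMap R (FractionRing R) β) (algebraMap R (FractionRing R) μ)
    (algebraMap R (FractionRing R) ν) (algebraMap R (FractionRing R) μ') m1 n1 e e' e'' eb σ τ
    (PowerSeries.map (algebraMap R (FractionRing R)) y) hYK hBK hDK hBK hDK' hm hn hβK hOβ hOμ hOν hOμ' hσ hτ
    hμμK hμνK a b
  have hRP : RP y A' (B : R) (a * μ + b * ν) := hLR R A' (B : R) μ ν y hRμ hRν a b
  have hMl2 : Ml (algebraMap R (FractionRing R) A') (algebraMap R (FractionRing R) (B : R))
      (PowerSeries.map (algebraMap R (FractionRing R)) y)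
      (algebraMap R (FractionRing R) ((a : R) * μ + (b : R) * ν)) g' u' := by
    have h1 : algebraMap R (FractionRing R) ((a : R) * μ + (b : R) * ν)
        = (a : FractionRing R) * algebraMap R (FractionRing R) μ
          + (b : FractionRing R) * algebraMap R (FractionRing R) ν := by
      rw [map_add, map_mul, map_mul, map_intCast, map_intCast]
    rw [h1]; exact hMl
  have hHt2 : Ht (PowerSeries.X * g' ^ 2) p := by
    have h1 : ((m1 : ℤ) * a ^ 2 + (n1 : ℤ) * b ^ 2).toNat = p := by
      rw [← hpab]; exact Int.toNat_natCast p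
    rw [h1] at hHt; exact hHt
  exact hKC R k p m q hL hp5 hpm A A' (a * μ + b * ν) α B η y w g' u' (e * a + e' * b) hY hw hRP hq hα hB hD
    hMl2 hodd hTy hHt2 hη hqA hqA'

end Pool.Agent.helper60.DB
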